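import Mathlib

/-!
# Squad SPV: sparse polynomials on a multiplicative subgroup of prime order (MP_a19fbd_nt)

Definitions and common rows.  `q` is a prime, exponents are elements of `Z/q`; `x ^ e.val`, `e : ZMod q`, is a
well defined power for `x ^ q = 1`.

All rows: file `Pool/Agent/HelperNN_SPV/XXX.lean`, import `Pool.Agent.SPV.Defs` (or the file of the row's
statement), namespace `Pool.Agent.SPV.HNN`, theorem `xxx (hypotheses = the statements of the column uses, in
this order) : XxxStmt`.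
-/

set_option autoImplicit false

namespace Pool.Agent.SPV

open Finset

/-- the value at `x` of the polynomial with the integer coefficients `b e`, `e ∈ Z/q` -/
def ev {q : ℕ} [NeZero q] {K : Type} [CommRing K] (b : ZMod q → ℤ) (x : K) : K :=
  ∑ e : ZMod q, (b e : K) * x ^ e.val

/-- the polynomial `det (x ^ (t i a j))` modulo `x ^ q - 1` -/
def dt {q k : ℕ} (t a : Fin k → ZMod q) (e : ZMod q) : ℤ :=
  ∑ σ : Equiv.Perm (Fin k), if ∑ i, t i * a (σ i) = e then (Equiv.Perm.sign σ : ℤ) else 0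

/-- the number of roots `z`, `z ^ q = 1`, of the polynomial with the coefficients `β i`, `i ∈ A` -/
noncomputable def nr (p q : ℕ) (A : Finset ℕ) (β : ℕ → ZMod p) : ℕ :=
  {z : ZMod p | z ^ q = 1 ∧ ∑ i ∈ A, β i * z ^ i = 0}.ncard

/-- **Row NRM** (the norm; medium). PROOF. As in `Pool.Agent.Helper24_Sparse` (files Mat, Bound; they may be
imported, with `Fin q` in place of `ZMod q`). `N = ∏ j ∈ Ico 1 q, ev b (w ^ j)`. With the circulant matrix
`circ b`: `det (circ b) = (ev b 1) N` and `det (circ (b + 1)) = (ev b 1 + q) N`, because `∑ e, x ^ e.val` is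
`0` for `x = w ^ j`, `1 ≤ j < q`, and `q` for `x = 1`. So `q N` is an integer; `N` is integral over `ℤ` (sum
of powers of `w`), so `N` is an integer. `N ≠ 0`: if `ev b (w ^ j) = 0`, the minimal polynomial of `w ^ j`,
the cyclotomic polynomial, divides `∑ b e X ^ e.val` and `ev b w = 0`. Divisibility: both determinants
are divisible by `p ^ |U|` (multiply with the matrix `(z ^ (s t))`, whose determinant is not `0` modulo
`p`: the columns `u ∈ U` of the product are divisible by `p`; for `b + 1` too, `∑ e, (z ^ u) ^ e.val = 0`),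
so `p ^ |U|` divides `q N`, and `p ≠ q`. -/
def NrmStmt : Prop :=
  ∀ (q : ℕ) [NeZero q], q.Prime → ∀ (b : ZMod q → ℤ) (w : ℂ), IsPrimitiveRoot w q → ev b w ≠ 0 →
    ∃ N : ℤ, N ≠ 0 ∧ |(N : ℝ)| = ∏ j ∈ Ico 1 q, ‖ev b (w ^ j)‖ ∧
      ∀ (p : ℕ) [Fact p.Prime], p ≠ q → ∀ z : ZMod p, IsPrimitiveRoot z q →
        ∀ U : Finset ℕ, U ⊆ Ico 1 q → (∀ u ∈ U, ev b (z ^ u) = 0) → (p : ℤ) ^ U.card ∣ N

/-- **Row CHE** (Chebotarev: the minors of the Fourier matrix of prime order; medium/strong). PROOF.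
Suppose the determinant is `0`: there is `c : Fin k → ℂ`, `c ≠ 0`, with `∑ j, c j w ^ (t i a j) = 0` for all `i`
(`Matrix.exists_mulVec_eq_zero_iff`). Let `V` be a valuation subring of `ℂ` which dominates `ℤ_(q)`, so `q` is
in the maximal ideal (`LocalSubring.exists_factor_valuationRing` for `ℤ_(q) → ℂ`, or
`LocalSubring.exists_le_valuationSubring`). Dividing `c` by a coefficient of maximal valuation we may assume
`c j ∈ V`, some `c j = 1`. `w ∈ V` (it is integral). Put `f = ∑ c j X ^ (a j).val ∈ V[X]`; the `k` elements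
`w ^ (t i).val` of the domain `V` are distinct roots of `f`, so `∏ i, (X - w ^ (t i).val)` divides `f` in `V[X]`.
Residue field `κ`, a field of characteristic `q`: `w ^ q = 1` gives `(w̄ - 1) ^ q = 0`, `w̄ = 1`. So
`(X - 1) ^ k` divides `f̄ = ∑ c̄ j X ^ (a j).val ≠ 0`. Then `∑ j, c̄ j (a j).val ^ i = 0` for all `i < k`
(apply `X d/dX` `i` times and put `X = 1`: `X d/dX` maps multiples of `(X - 1) ^ (m + 1)` to multiples of
`(X - 1) ^ m`), and the Vandermonde matrix of the `(a j).val`, distinct in `κ` (`(a j).val < q`), is regular: all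
`c̄ j = 0`, contradiction. -/
def CheStmt : Prop :=
  ∀ (q : ℕ) [NeZero q], q.Prime → ∀ (w : ℂ), IsPrimitiveRoot w q → ∀ (k : ℕ) (t a : Fin k → ZMod q),
    Function.Injective t → Function.Injective a →
    (Matrix.of fun i j => w ^ (t i * a j).val).det ≠ 0

/-- **Row POL** (the determinant as a polynomial; easy). PROOF. Leibniz formula for the transposed matrix:
`det = ∑ σ, sign σ ∏ i, x ^ (t i * a (σ i)).val`, the product is `x ^ (∑ i, t i * a (σ i)).val` because `x ^ q = 1`
(the exponents are congruent modulo `q`); exchange the sums. The bound: `|ev| ≤ ∑ σ, 1` by the same formula. -/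
def PolStmt : Prop :=
  ∀ (q k : ℕ) [NeZero q] (t a : Fin k → ZMod q),
    (∀ (K : Type) [CommRing K] (x : K), x ^ q = 1 →
      ev (dt t a) x = (Matrix.of fun i j => x ^ (t i * a j).val).det) ∧
    ∀ x : ℂ, x ^ q = 1 → ‖ev (dt t a) x‖ ≤ k.factorial

/-- **Row HAD** (Hadamard's inequality for complex matrices; medium). PROOF. Gram-Schmidt, or
`det (M Mᴴ) ≤ ∏ (M Mᴴ) i i` for the positive semidefinite `M Mᴴ` (induction with the Schur complement), or from
one of the versions in the pool (`Helper52_GLE/HAD`, `Helper44_QC/Comp`, `Results/MP_93c8fe_an/NoOversampling`). -/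
def HadStmt : Prop :=
  ∀ (n : ℕ) (M : Matrix (Fin n) (Fin n) ℂ), ‖M.det‖ ^ 2 ≤ ∏ i, ∑ j, ‖M i j‖ ^ 2

/-- **Row PAR** (Parseval and the inequality of the means; easy). PROOF. `∑ j ∈ range q, ‖ev b (w ^ j)‖ ^ 2 =
q ∑ e, b e ^ 2` (orthogonality; see `Helper24_Sparse/Cpx`). -/
def ParStmt : Prop :=
  ∀ (q : ℕ) [NeZero q], q.Prime → ∀ (b : ZMod q → ℤ) (w : ℂ), IsPrimitiveRoot w q →
    ∑ j ∈ Ico 1 q, ‖ev b (w ^ j)‖ ^ 2 ≤ q * ∑ e, (b e : ℝ) ^ 2

end Pool.Agent.SPV
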