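import Pool.Agent.SPV.StmtsL

/-!
# Squad SPV, block A: almost all exponent sets, all coefficients

THEOREM AE.  Let `1/2 < ε < 1`, `2 (1 - ε) < τ`.  For large primes `q`, all primes `p` with `q ∣ p - 1`, all sets
`S` of exponents and all `k` with `k q ^ τ ≤ |S|`: all but a proportion `exp (-c (log q) ^ 2)` of the `k`-subsets
`A` of `S` are such that EVERY nonzero polynomial with exponents in `A` has at most `ε q` roots in the group
of order `q` of `F_p` (row AEF).

IDEA.  Let `B` be the exact support of `f`, `|B| = m`, with more than `ε q` roots; `E j = f (g ^ j)` is a linear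
recurrence with the roots `g ^ a`, `a ∈ B`.  After a translation at most `h = 2 (1 - ε) m` of the values
`E 0, .., E (2 m - 1)` are not `0` (row WIN); these values determine `B` (Prony, row PRO): `chi m E y = 0` iff `y` is
one of the `g ^ a`.  For a fixed pattern `D` of the nonzero values `chi m e y` is a polynomial of degree `m` in
the `h` unknowns `e d`; the polynomials `∏ (y ∉ X_B) chi m e y` of degree `m q` are linearly independent, so the
number of the sets `B` with pattern `D` is at most `binom (m q + h, h)` (rows DGR, DIM, CNB), about `q ^ h`.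
-/

set_option autoImplicit false

namespace Pool.Agent.SPV

open Finset

/-- the exponential sum `j ↦ ∑ b a (g ^ a) ^ j` -/
def es {K : Type} [Field K] (g : K) (B : Finset ℕ) (b : ℕ → K) (j : ℕ) : K :=
  ∑ a ∈ B, b a * (g ^ a) ^ j

/-- Prony's determinant of the sequence `e` at the point `y` -/
noncomputable def chi {R : Type} [CommRing R] (m : ℕ) (e : ℕ → R) (y : R) : R :=
  (Matrix.of fun i j : Fin (m + 1) => if i.val < m then e (i.val + j.val) else y ^ j.val).det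

/-- the set `B` of exponents is the exact support of a polynomial with more than `ε q` roots -/
def Bad (p q : ℕ) (ε : ℝ) (B : Finset ℕ) : Prop :=
  ∃ β : ℕ → ZMod p, (∀ a ∈ B, β a ≠ 0) ∧ ε * q < nr p q B β

/-- **Row PRO** (Prony; medium). PROOF. `m = |B|`. The determinant is `0` iff there is a vector `c : Fin (m + 1) → K`,
`c ≠ 0`, in the kernel (`Matrix.exists_mulVec_eq_zero_iff`), i.e. with `P = ∑ j, c j X ^ j`: `P.eval y = 0` and for
all `i < m`: `0 = ∑ j, es (i + j) c j = ∑ a ∈ B, b a (g ^ a) ^ i P.eval (g ^ a)`. (→) The Vandermonde matrix of the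
`m` different points `g ^ a` is regular, so `b a P.eval (g ^ a) = 0`, `P.eval (g ^ a) = 0` for all `a ∈ B`; `P ≠ 0` has
degree `≤ m`, so it has at most `m` roots and `y` is one of the `g ^ a` (else `m + 1` roots). (←) For `y = g ^ a` take
the coefficients of `∏ a ∈ B, (X - g ^ a)` (monic of degree `m`). -/
def ProStmt : Prop :=
  ∀ (K : Type) [Field K] (g : K) (B : Finset ℕ) (b : ℕ → K), Set.InjOn (fun a => g ^ a) (B : Set ℕ) →
    (∀ a ∈ B, b a ≠ 0) → ∀ y : K, chi B.card (es g B b) y = 0 ↔ ∃ a ∈ B, y = g ^ a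

/-- **Row DGR** (`chi` is a polynomial in the nonzero entries; easy/medium). PROOF. Take the same determinant over
`MvPolynomial D K` with the entries `X d` (`d = i + j ∈ D`), `0` (`i + j ∉ D`) and `C (y ^ j)` (last row). Every term of
the Leibniz formula is a product of `m` factors of total degree `≤ 1` and one constant. `RingHom.map_det` for
`MvPolynomial.eval v`. -/
def DgrStmt : Prop :=
  ∀ (K : Type) [Field K] (m : ℕ) (D : Finset ℕ) (y : K), ∃ P : MvPolynomial D K, P.totalDegree ≤ m ∧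
    ∀ v : D → K, MvPolynomial.eval v P = chi m (fun j => if h : j ∈ D then v ⟨j, h⟩ else 0) y

/-- **Row DIM** (dimension count; medium). PROOF. The `P i` are linearly independent (evaluate a relation at
`v i`). They lie in the span of the monomials of degree `≤ M`; the number of `s : σ →₀ ℕ` with `s.degree ≤ M` is
`binom (M + h, h)`, `h = |σ|` (add one variable: `Option σ` and degree exactly `M`, see
`Finset.card_finsuppAntidiag_nat_eq_choose` in `Mathlib/Algebra/Order/Antidiag/FinsuppEquiv.lean`; for `σ` empty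
both are `1`). -/
def DimStmt : Prop :=
  ∀ (K : Type) [Field K] (σ : Type) [Fintype σ] (n M : ℕ) (P : Fin n → MvPolynomial σ K)
    (v : Fin n → σ → K), (∀ i, (P i).totalDegree ≤ M) → (∀ i, MvPolynomial.eval (v i) (P i) ≠ 0) →
    (∀ i j, i ≠ j → MvPolynomial.eval (v j) (P i) = 0) → n ≤ (M + Fintype.card σ).choose (Fintype.card σ)

/-- **Row CNB** (the sets with a given pattern; medium, uses PRO, DGR, DIM). PROOF. For `B ∈ T` choose `b = b_B` and put
`v_B d = es g B b_B d`, `d ∈ D`. The function `e_B j = if j ∈ D then v_B j else 0` agrees with `es g B b_B` at all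
`j < 2 m`, so `chi m e_B y = chi m (es g B b_B) y` (only the arguments `i + j ≤ 2 m - 1` occur; `i < m`, `j ≤ m`).
`P_B` = the product of the polynomials of DGR over the `y = g ^ c`, `c ∈ range q` not in `B`: total degree
`≤ m q`. By PRO `eval v_B P_B ≠ 0` (`g ^ c = g ^ a` only for `c = a`), and for `B' ≠ B` in `T` there is `c ∈ B'`, `c ∉ B`
(`|B| = |B'|`), so `eval v_(B') P_B = 0`. DIM with `σ = D`, enumerate `T` by `Fin T.card`. -/
def CnbStmt : Prop :=
  ∀ (K : Type) [Field K] (g : K) (q m : ℕ), 0 < q → IsPrimitiveRoot g q → ∀ (D : Finset ℕ)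
    (T : Finset (Finset ℕ)), (∀ B ∈ T, B ⊆ range q ∧ B.card = m ∧ ∃ b : ℕ → K, (∀ a ∈ B, b a ≠ 0) ∧
      ∀ j < 2 * m, j ∉ D → es g B b j = 0) → T.card ≤ (m * q + D.card).choose D.card

/-- **Row WIN** (a window with few nonroots; easy/medium). PROOF. `φ t = es g B b t ≠ 0` is periodic modulo `q`
(`g ^ q = 1`). `∑ t ∈ range q, |{j < L : φ (t + j)}| = ∑ j < L, |{t ∈ range q : φ (t + j)}| = L |{t ∈ range q : φ t}|`.
So some `t` has `q |{j < L : φ (t + j)}| ≤ L |{t ∈ range q : φ t}|`; `b' a = b a (g ^ a) ^ t`, `es g B b' j =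
es g B b (t + j)`. -/
def WinStmt : Prop :=
  ∀ (K : Type) [Field K] [DecidableEq K] (g : K) (q L : ℕ), 0 < q → g ^ q = 1 → ∀ (B : Finset ℕ)
    (b : ℕ → K), (∀ a ∈ B, b a ≠ 0) → ∃ b' : ℕ → K, (∀ a ∈ B, b' a ≠ 0) ∧
      q * ((range L).filter fun j => es g B b' j ≠ 0).card ≤
        L * ((range q).filter fun t => es g B b t ≠ 0).card

/-- **Row SMK** (few terms; medium). PROOF. `m = |B|`. The `q` vectors `(⌊4 (λ a mod q) / q⌋) (a ∈ B)`, `λ < q`, take at
most `4 ^ m < q` values, so two different `λ₁ < λ₂` give the same vector; `λ = λ₂ - λ₁`, `0 < λ < q`: for `a ∈ B` the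
residue of `λ a` modulo `q` is `s a` or `q - s a` with `0 ≤ s a < q / 4`, so with `K = ⌊q / 4⌋` the residue `e a` of
`λ a + K` is in `[0, 2 K]`. The map `t ↦ λ t mod q` permutes `range q` and `es g B b (λ t mod q) =
∑ b a (g ^ t) ^ (λ a) = (g ^ t) ^ (-K) ∑ b a (g ^ t) ^ (e a)`; the `e a` are different (`q` prime), so this is a nonzero
polynomial of degree `≤ 2 K ≤ q / 2` in `g ^ t` and it is `0` for at most `q / 2` of the `t < q`. -/
def SmkStmt : Prop :=
  ∀ (K : Type) [Field K] [DecidableEq K] (g : K) (q : ℕ), q.Prime → IsPrimitiveRoot g q →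
    ∀ (B : Finset ℕ) (b : ℕ → K), B ⊆ range q → B.Nonempty → (∀ a ∈ B, b a ≠ 0) → 4 ^ B.card < q →
      q ≤ 2 * ((range q).filter fun t => es g B b t ≠ 0).card

/-- **Row NRE** (roots and exponents; easy, uses RTS). PROOF. RTS; `s ↦ s.val` is a bijection from `ZMod q` to
`range q` and `z ^ (s * i).val = (z ^ i) ^ s.val` (exponents modulo `q`). -/
def NreStmt : Prop :=
  ∀ (p q : ℕ) [NeZero q] [Fact p.Prime], q.Prime → q ∣ p - 1 → ∃ z : ZMod p, IsPrimitiveRoot z q ∧
    ∀ (A : Finset ℕ) (β : ℕ → ZMod p), ((range q).filter fun t => es z A β t = 0).card = nr p q A β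

/-- **Row NBD** (the number of the bad sets; medium, uses CNB, WIN, NRE). PROOF. Let `B` be bad, `|B| = m`, `η = 1 - ε`.
By NRE less than `η q` of the `t < q` have `es z B β t ≠ 0`; WIN with `L = 2 m`: some `b'` with the pattern
`D = {j < 2 m : es z B b' j ≠ 0}`, `|D| ≤ h := ⌊2 η m⌋₊`. So the number of bad sets is at most the sum over the
`D ⊆ range (2 m)`, `|D| ≤ h`, of `binom (m q + |D|, |D|)` (CNB), hence `≤ 2 ^ (2 m) binom (m q + h, h)`. One term of the
binomial theorem for `(1 + 1/q) ^ (m q + h)`: `binom (m q + h, h) ≤ q ^ h (1 + 1/q) ^ (m q + h) ≤ q ^ h exp (m + h/q) ≤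
q ^ h exp (2 m)` (`h ≤ 2 m`, `q ≥ 2`). And `q ^ h ≤ q ^ (2 η m)`, `4 e ^ 2 ≤ 30`. -/
def NbdStmt : Prop :=
  ∀ (p q : ℕ), p.Prime → q.Prime → q ∣ p - 1 → ∀ ε : ℝ, 0 ≤ ε → ε ≤ 1 → ∀ m : ℕ,
    ({B : Finset ℕ | B ⊆ range q ∧ B.card = m ∧ Bad p q ε B}.ncard : ℝ) ≤
      (30 * (q : ℝ) ^ (2 * (1 - ε))) ^ m

/-- **Row UNB** (union bound; easy/medium). PROOF. For a fixed `B ⊆ S`, `|B| = m`, the number of `A ⊆ S`, `|A| = k`, `B ⊆ A` is
`binom (|S| - m, k - m)`, and `binom (|S|, k) binom (k, m) = binom (|S|, m) binom (|S| - m, k - m)`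
(`Nat.choose_mul`), `binom (k, m) / binom (|S|, m) ≤ (k / |S|) ^ m` for `k ≤ |S|` (factor by factor). For `k > |S|` the
left side is `0`. -/
def UnbStmt : Prop :=
  ∀ (S : Finset ℕ) (k : ℕ) (P : Finset ℕ → Prop) (w : ℕ → ℝ),
    (∀ m, 1 ≤ m → m ≤ k → ({B : Finset ℕ | B ⊆ S ∧ B.card = m ∧ P B}.ncard : ℝ) ≤ w m) →
    ({A : Finset ℕ | A ⊆ S ∧ A.card = k ∧ ∃ B, B ⊆ A ∧ B.Nonempty ∧ P B}.ncard : ℝ) ≤
      (∑ m ∈ Icc 1 k, w m * ((k : ℝ) / S.card) ^ m) * (S.card.choose k : ℝ)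

/-- **Row AEF** (THE THEOREM; medium, uses SMK, NRE, NBD, UNB). PROOF. Let `A ⊆ S`, `β` on `A` not `0`, `ε q < nr p q A β`;
`B = {i ∈ A : β i ≠ 0}` is not empty and `nr p q B β = nr p q A β`, so `B` is bad. SMK and NRE: `4 ^ |B| ≥ q` (else at
least `q / 2` of the `t` are no roots, `nr ≤ q / 2 < ε q`). UNB with `P B = (Bad p q ε B ∧ q ≤ 4 ^ |B|)` and
`w m = (30 q ^ (2 (1 - ε))) ^ m` if `q ≤ 4 ^ m`, `0` otherwise (NBD; `S ⊆ range q`). With `k / |S| ≤ q ^ (-τ)` and
`κ = (τ - 2 (1 - ε)) / 2 > 0`: the sum is at most `∑ (m ≥ m₀) x ^ m ≤ 2 x ^ m₀`, `m₀ = ⌈log q / log 4⌉`, where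
`x = 30 q ^ (-2 κ) ≤ q ^ (-κ) ≤ 1/2` for large `q`; `x ^ m₀ ≤ exp (- κ (log q) ^ 2 / log 4)`, and `log 4 < 2`:
`2 exp (- κ (log q) ^ 2 / 2) ≤ exp (- (κ / 4) (log q) ^ 2)` for large `q`; `c = κ / 4`. -/
def AefStmt : Prop :=
  ∀ ε τ : ℝ, 1 / 2 < ε → ε < 1 → 2 * (1 - ε) < τ → ∃ c : ℝ, 0 < c ∧ ∃ N : ℕ, ∀ (p q : ℕ), p.Prime →
    q.Prime → N ≤ q → q ∣ p - 1 → ∀ S : Finset ℕ, S ⊆ range q → ∀ k : ℕ, 1 ≤ k →
    (k : ℝ) * (q : ℝ) ^ τ ≤ S.card →
    ({A : Finset ℕ | A ⊆ S ∧ A.card = k ∧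
      ∃ β : ℕ → ZMod p, (∃ i ∈ A, β i ≠ 0) ∧ ε * q < nr p q A β}.ncard : ℝ) ≤
      Real.exp (-(c * (Real.log q) ^ 2)) * (S.card.choose k : ℝ)

end Pool.Agent.SPV
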