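import Pool.Agent.SPV.StmtsA

/-!
# Squad SPV, block A, stronger form: thinning of an arbitrary set of exponents by its own size

THEOREM AES.  Let `1/2 < ε < 1`, `2 (1 - ε) < τ`.  For all sets `S` of exponents with `s = |S| ≥ N` and all
`k ≤ s ^ (1 - τ)`: all but a proportion `exp (-c log s log q)` of the `k`-subsets `A` of `S` are such that EVERY
nonzero polynomial with exponents in `A` has at most `ε q` roots (row AES).  It contains row AEF; the only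
change: inside `S` the product of `Phi_B` runs over the `y = g ^ c`, `c ∈ S` not in `B`, so its degree is
`m |S|` instead of `m q` (row CNS), and the number of the bad `B ⊆ S` is at most `(30 s ^ (2 (1 - ε))) ^ m`.
-/

set_option autoImplicit false

namespace Pool.Agent.SPV

open Finset

/-- **Row CNS** (the sets inside `S` with a given pattern; medium, uses PRO, DGR, DIM). PROOF. Word for word the
proof of CNB (`Pool/Agent/Helper67_SPV/CNB.lean`) with the product over `c ∈ S`, `c ∉ B`, in place of `c ∈ range q`,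
`c ∉ B`: for `B' ≠ B` in `T` the element `c ∈ B'`, `c ∉ B` is in `S`. -/
def CnsStmt : Prop :=
  ∀ (K : Type) [Field K] (g : K) (q m : ℕ), 0 < q → IsPrimitiveRoot g q → ∀ (S : Finset ℕ),
    S ⊆ range q → ∀ (D : Finset ℕ) (T : Finset (Finset ℕ)), (∀ B ∈ T, B ⊆ S ∧ B.card = m ∧
      ∃ b : ℕ → K, (∀ a ∈ B, b a ≠ 0) ∧ ∀ j < 2 * m, j ∉ D → es g B b j = 0) →
    T.card ≤ (m * S.card + D.card).choose D.card

/-- **Row NBS** (the number of the bad sets inside `S`; medium, uses CNS, WIN, NRE). PROOF. As NBD with `s = |S|` in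
place of `q`: if `s ≤ 1` or `m > s` it is clear (at most one set `B`; `0 ^ 0 = 1`, and for `s = 0`, `m ≥ 1` there is no
set). Let `2 ≤ s`, `1 ≤ m ≤ s`, `B` bad, `η = 1 - ε`: WIN with `L = 2 m` gives `b'` with the pattern `D`, `|D| ≤ h :=
⌊2 η m⌋₊ ≤ 2 m`; by CNS the number of bad sets is at most `2 ^ (2 m) binom (m s + h, h)` and `binom (m s + h, h) ≤
s ^ h (1 + 1/s) ^ (m s + h) ≤ s ^ h exp (m + h/s) ≤ s ^ h exp (2 m)`; `4 e ^ 2 ≤ 30`, `s ^ h ≤ s ^ (2 η m)`. -/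
def NbsStmt : Prop :=
  ∀ (p q : ℕ), p.Prime → q.Prime → q ∣ p - 1 → ∀ ε : ℝ, 0 ≤ ε → ε ≤ 1 → ∀ S : Finset ℕ, S ⊆ range q →
    ∀ m : ℕ, ({B : Finset ℕ | B ⊆ S ∧ B.card = m ∧ Bad p q ε B}.ncard : ℝ) ≤
      (30 * (S.card : ℝ) ^ (2 * (1 - ε))) ^ m

/-- **Row AES** (THE THEOREM; medium, uses SMK, NRE, NBS, UNB). PROOF. Let `A ⊆ S`, `β` on `A` not `0`, `ε q < nr p q A β`;
`B = {i ∈ A : β i ≠ 0}` is not empty and `nr p q B β = nr p q A β`, so `B` is bad. SMK and NRE: `4 ^ |B| ≥ q` (else at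
least `q / 2` of the `t` are no roots, `nr ≤ q / 2 < ε q`). UNB with `P B = (Bad p q ε B ∧ q ≤ 4 ^ |B|)` and
`w m = (30 s ^ (2 (1 - ε))) ^ m` if `q ≤ 4 ^ m`, `0` otherwise (NBS). With `k / s ≤ s ^ (-τ)` and
`κ = (τ - 2 (1 - ε)) / 2 > 0`: the sum is at most `∑ (m ≥ m₀) x ^ m ≤ 2 x ^ m₀`, `m₀ = ⌈log q / log 4⌉`, where
`x = 30 s ^ (-2 κ) ≤ s ^ (-κ) ≤ 1/2` for `s ≥ N`; `x ^ m₀ ≤ exp (- κ log s log q / log 4)`, and `log 4 < 2`:
`2 exp (- κ log s log q / 2) ≤ exp (- (κ / 4) log s log q)` for `q ≥ s ≥ N`; `c = κ / 4`. -/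
def AesStmt : Prop :=
  ∀ ε τ : ℝ, 1 / 2 < ε → ε < 1 → 2 * (1 - ε) < τ → ∃ c : ℝ, 0 < c ∧ ∃ N : ℕ, ∀ (p q : ℕ), p.Prime →
    q.Prime → q ∣ p - 1 → ∀ S : Finset ℕ, S ⊆ range q → N ≤ S.card → ∀ k : ℕ, 1 ≤ k →
    (k : ℝ) * (S.card : ℝ) ^ τ ≤ S.card →
    ({A : Finset ℕ | A ⊆ S ∧ A.card = k ∧
      ∃ β : ℕ → ZMod p, (∃ i ∈ A, β i ≠ 0) ∧ ε * q < nr p q A β}.ncard : ℝ) ≤
      Real.exp (-(c * Real.log S.card * Real.log q)) * (S.card.choose k : ℝ)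

end Pool.Agent.SPV
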