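import Pool.Agent.SPV.Defs

/-!
# Squad SPV, block L: all coefficients, large p

THEOREM L.  Let `f` be a polynomial with exponents in `A`, `|A| = k`, not zero, with `r` roots in the group of
order `q` of `F_p`.  Then `(q - r) binom(q,k) log k! ≥ q binom(r,k) (log p - log k!)`, and the same for several
primes with the same `A` (row MIN).  Consequences: rows LGA, LGB, LGC.  IDEA.  For a tuple `t` of `k`
different elements of `Z/q` the minor `D_t = det (ζ ^ (t i a j))` is not `0` (Chebotarev) and at most `k!`; if some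
translate of `u t` consists of exponents of roots of `f`, then `D_t` is divisible by the `u`-th prime over
`p`.  So for every `t` this holds for at most `(q - 1) log k! / log p` elements `u`.  Second moment:
many `t` have a translate in the set of roots.
-/

set_option autoImplicit false

namespace Pool.Agent.SPV

open Finset

/-- **Row RTS** (roots and exponents; easy). PROOF. `ZMod p` has a primitive `q`-th root of unity `z`
(`q ∣ p - 1`: the unit group is cyclic; `IsCyclic`, or `ZMod.exists_...`), the solutions of `z ^ q = 1` are the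
`q` different powers `z ^ s.val`, and `(z ^ s.val) ^ i = z ^ (s * i).val`. -/
def RtsStmt : Prop :=
  ∀ (p q : ℕ) [NeZero q] [Fact p.Prime], q.Prime → q ∣ p - 1 → ∃ z : ZMod p, IsPrimitiveRoot z q ∧
    ∀ (A : Finset ℕ) (β : ℕ → ZMod p),
      (univ.filter fun s : ZMod q => ∑ i ∈ A, β i * z ^ (s * (i : ZMod q)).val = 0).card = nr p q A β

/-- **Row VAN** (a minor which vanishes modulo `p`; easy, uses POL). PROOF. `z ^ ((u t i + s) a j).val =
(z ^ u.val) ^ (t i a j).val * z ^ (s a j).val` (exponents modulo `q`). So the vector `c j = β j z ^ (s a j).val ≠ 0`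
is in the kernel of the matrix `((z ^ u.val) ^ (t i a j).val)` over the field `ZMod p`; its determinant is `0`
(`Matrix.exists_mulVec_eq_zero_iff`); POL with `x = z ^ u.val`. -/
def VanStmt : Prop :=
  ∀ (q k p : ℕ) [NeZero q] [Fact p.Prime] (z : ZMod p), z ^ q = 1 → ∀ (t a : Fin k → ZMod q)
    (β : Fin k → ZMod p) (u s : ZMod q), (∃ j, β j ≠ 0) →
    (∀ i, ∑ j, β j * z ^ ((u * t i + s) * a j).val = 0) → ev (dt t a) (z ^ u.val) = 0

/-- **Row SEC** (second moment; medium). PROOF. `r = |Z|`; for an injective `t` put `N t = #{s : t i + s ∈ Z for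
all i}`. `∑ t, N t = q (r)_k` (`(r)_k = r.descFactorial k`: for every `s` the tuples `t + s` are the injective tuples
in `Z`). `∑ t, (N t) ^ 2 = q ∑ d, (ν d)_k`, `ν d = |Z ∩ (Z + d)|` (pairs `s, s + d`: the tuples `t + s` are the
injective tuples in `Z ∩ (Z - d)`). `∑ d, ν d = r ^ 2`, `ν d ≤ r`, `2 r - q ≤ ν d`. CLAIM: for integers
`max 0 (2 r - q) ≤ ν ≤ r < q`: `(ν)_k (q)_k ≤ (r)_k ^ 2 + ((ν - 2 r + q) / (q - r)) (r)_k (q)_k`. Proof: with
`x = r - ν ∈ [0, q - r]` the function `(r - x)_k` is convex in the integer `x` (its differences are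
`- k (r - x - 1)_(k-1)`, monotone), so it lies below the chord on `[0, min r (q - r)]`; the claim is linear in
the chord variable and it is true at `x = 0` (value `(r)_k (q)_k`) and at `x = q - r` if `2 r ≥ q`, because
`(2 r - q)_k (q)_k ≤ (r)_k ^ 2` (factor by factor: `(2 r - q - i)(q - i) ≤ (r - i) ^ 2`), and at `x = r` if `2 r < q`
(left side `0`). Sum over `d`: `∑ (ν d - 2 r + q) = (q - r) ^ 2`, so `(q)_k ∑ d, (ν d)_k ≤ q (r)_k ^ 2 +
(q - r) (r)_k (q)_k`. Cauchy-Schwarz: `(q (r)_k) ^ 2 ≤ M ∑ t, (N t) ^ 2`, `M` = the number of `t` with `N t > 0`.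
Multiply by `(q)_k` and cancel `q (r)_k` (if `(r)_k = 0` there is nothing to prove). The case `r = q`: all `t`
are counted, `M = (q)_k`. -/
def SecStmt : Prop :=
  ∀ (q k : ℕ) [NeZero q] (Z : Finset (ZMod q)), 1 ≤ k → k ≤ q →
    (q : ℝ) * (Z.card.descFactorial k) * (q.descFactorial k) ≤
      ((univ.filter fun t : Fin k → ZMod q => Function.Injective t ∧ ∃ s, ∀ i, t i + s ∈ Z).card : ℝ) *
        (q * (Z.card.descFactorial k) + (q - Z.card) * (q.descFactorial k))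

/-- **Row MIN** (the main inequality; medium, uses NRM, CHE, POL, RTS, VAN, SEC). PROOF. `k = |A|`; if `r < k`
the left side is `0`. Let `a : Fin k → ZMod q` enumerate `A` (injective as `A ⊆ range q`). For `p ∈ P` let `z_p` be the
root of RTS and `Z_p` a set of exactly `r` elements `s` with `∑ β i z_p ^ (s i).val = 0`. Let `t` be injective. For
`p ∈ P` let `U_(p,t)` be the set of the `u ∈ Ico 1 q` such that `∃ s, ∀ i, u t i + s ∈ Z_p`. By VAN `ev (dt t a)`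
vanishes at `z_p ^ u`, `u ∈ U_(p,t)`; by CHE (and POL for `x = w`) `ev (dt t a) w ≠ 0`. NRM: `p ^ |U_(p,t)|`
divides the integer `N_t ≠ 0`, the primes are different (and not `q`), so the product over `p ∈ P` divides `N_t`
and `∑ p, |U_(p,t)| log p ≤ log |N_t| ≤ (q - 1) log k!` (POL). Sum over the `(q)_k` injective `t`: for fixed `u` the
map `t ↦ u t` is a bijection, so `∑ t, |U_(p,t)| = (q - 1) M_p`, `M_p` the number of injective `t` with a
translate in `Z_p`. So `∑ p, M_p log p ≤ (q)_k log k!`. SEC: `M_p ≥ q (r)_k (q)_k / (q (r)_k + (q - r) (q)_k)`.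
Divide by `(q)_k` and by `k!` (`(r)_k = k! binom(r,k)`, `Nat.descFactorial_eq_factorial_mul_choose`). -/
def MinStmt : Prop :=
  ∀ (q : ℕ), q.Prime → ∀ (A : Finset ℕ), A ⊆ range q → A.Nonempty → ∀ (P : Finset ℕ) (r : ℕ), r ≤ q →
    (∀ p ∈ P, p.Prime ∧ q ∣ p - 1 ∧ ∃ β : ℕ → ZMod p, (∃ i ∈ A, β i ≠ 0) ∧ r ≤ nr p q A β) →
    (∑ p ∈ P, Real.log p) * (q * (r.choose A.card)) ≤
      Real.log (A.card.factorial) * (q * (r.choose A.card) + (q - r) * (q.choose A.card))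

/-- **Row LGA** (asymptotics for `p ≥ (k!) ^ 2`; medium, uses MIN). PROOF. MIN for `P = {p}`, `r = nr`, with
`log p ≥ 2 log k! > 0`: `q binom(r,k) ≤ (q - r) binom(q,k)`, i.e. with `η = 1 - r/q`: `∏ i < k, (r - i)/(q - i) ≤ η`.
Suppose `η < (1 - κ) (log k)/k`. Every factor is at least `(r - k)/(q - k) = 1 - η'`, `η' = η/(1 - k/q) ≤ η/(1 - 1/K)`.
So `(1 - η') ^ k ≤ η`; but `(1 - η') ^ k ≥ exp (- k η' - k η' ^ 2) ≥ exp (- (1 - κ/2) log k - 1) = k ^ (-1 + κ/2)/e`, which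
is larger than `(log k)/k` for `k ≥ K` (`η' ≤ 1/2`). -/
def LgaStmt : Prop :=
  ∀ κ : ℝ, 0 < κ → κ < 1 → ∃ K : ℕ, ∀ (q p : ℕ), q.Prime → p.Prime → q ∣ p - 1 →
    ∀ (A : Finset ℕ), A ⊆ range q → K ≤ A.card → K * A.card ≤ q → (A.card.factorial) ^ 2 ≤ p →
    ∀ β : ℕ → ZMod p, (∃ i ∈ A, β i ≠ 0) →
    (nr p q A β : ℝ) ≤ (1 - (1 - κ) * (Real.log A.card / A.card)) * q

/-- **Row LGB** (asymptotics for `p ≥ exp (q ^ θ)`; medium, uses MIN). PROOF. `k = |A|`, `L = log k! ≤ k log k`.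
If `k = 1`, MIN with `P = {p}` gives `r = nr = 0`. Let `k ≥ 2`, so `L > 0`, and suppose `r = nr > q ^ (1 - (θ - κ)/k)`,
`ρ = r/q`, `η = 1 - ρ`. Then `ρ ^ k > q ^ (-(θ - κ))` and `η < 1 - exp (-(θ - κ)(log q)/k) ≤ (log q)/k`, and
`r > √q`. MIN: `binom(r,k)/binom(q,k) ≤ η L/(log p - L) ≤ 2 η q ^ (-θ) k log k ≤ 2 (log q) ^ 2 q ^ (-θ)` (`L ≤
q ^ (θ - κ) log q ≤ q ^ θ / 2`). And `(r - i)/(q - i) = ρ (1 - i η/(ρ (q - i)))`, so `binom(r,k)/binom(q,k) ≥ ρ ^ k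
(1 - k ^ 2 η/(ρ (q - k)))` (Bernoulli; note `k ≤ q ^ (θ - κ) ≤ q/2`), where `k ^ 2 η/(ρ (q - k)) ≤ 2 k ^ 2 η / r`: for
`ρ ≥ 1/2` it is at most `4 k (log q)/q`, and `k ≤ q ^ (1 - κ)`; for `ρ < 1/2` we have `η > 1/2`, `k ≤ 2 log q`, and it is at
most `8 (log q) ^ 2/√q`. In both cases it is `≤ 1/2` for large `q`. So `q ^ (-(θ - κ))/2 ≤ 2 (log q) ^ 2 q ^ (-θ)`,
false for large `q`. -/
def LgbStmt : Prop :=
  ∀ θ κ : ℝ, 0 < κ → κ < θ → θ ≤ 1 → ∃ N : ℕ, ∀ (q p : ℕ), q.Prime → N ≤ q → p.Prime → q ∣ p - 1 →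
    Real.exp ((q : ℝ) ^ θ) ≤ p → ∀ (A : Finset ℕ), A ⊆ range q → A.Nonempty →
    (A.card : ℝ) ≤ (q : ℝ) ^ (θ - κ) → ∀ β : ℕ → ZMod p, (∃ i ∈ A, β i ≠ 0) →
    (nr p q A β : ℝ) ≤ (q : ℝ) ^ (1 - (θ - κ) / A.card)

/-- **Row LGC** (exceptional primes; medium, uses MIN). PROOF. Let `P` be as in the statement and split it
according to the exponent set `A_p` (chosen for every `p ∈ P`), `r = ⌈ε q⌉`, `k = |A| ≤ q ^ δ < ε q/2`. MIN for every `A`:
`∑ (p with A_p = A) log p ≤ log k! (1 + binom(q,k)/binom(r,k)) ≤ k log k (1 + (2/ε) ^ k)`, because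
`(q - i)/(r - i) ≤ q/(r - k) ≤ 2/ε`. The number of the sets `A ⊆ range q` with `|A| ≤ q ^ δ` is at most
`(q + 1) ^ (q ^ δ)` (or `∑ k ≤ q ^ δ, q ^ k`). So `∑ p ∈ P, log p ≤ exp (C q ^ δ log q) ≤ exp (q ^ (δ + κ))` for large
`q`. -/
def LgcStmt : Prop :=
  ∀ ε δ κ : ℝ, 0 < ε → 0 < δ → δ < 1 → 0 < κ → ∃ N : ℕ, ∀ q : ℕ, q.Prime → N ≤ q → ∀ P : Finset ℕ,
    (∀ p ∈ P, p.Prime ∧ q ∣ p - 1 ∧ ∃ A : Finset ℕ, A ⊆ range q ∧ A.Nonempty ∧
      (A.card : ℝ) ≤ (q : ℝ) ^ δ ∧ ∃ β : ℕ → ZMod p, (∃ i ∈ A, β i ≠ 0) ∧ ε * q < nr p q A β) →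
    ∑ p ∈ P, Real.log p ≤ Real.exp ((q : ℝ) ^ (δ + κ))

end Pool.Agent.SPV
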