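import Pool.Agent.SPV.Defs
import Pool.Agent.SPV.StmtsL

/-!
# Squad SPV, block E: few coefficient values (theorem of helper13, note 3760)

THEOREM E.  `f = ∑ l < t, c l F l`, the `F l` integer polynomials with exponents in `A`, `|A| = k`, linearly
independent, `c ≠ 0` in `F_p ^ t` arbitrary, `S` the sum of the squares of all coefficients of the `F l`, `r` the
number of the roots `≠ 1` of `f` in the group of order `q`.  Then
`(r ^ t / (q - 1) ^ (t - 1) - (t - 1)(k - 1)) log p ≤ (t (q - 1) / 2) log (q S / (q - 1))` (row ENE).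
IDEA.  `v(s) = (F l (ζ ^ s))_l`.  If `s 1, .., s t` are exponents of roots then `det (v (s i)) = 0` modulo `p`.
Count the dilations `u s` of a tuple `s` which consist of exponents of roots.
-/

set_option autoImplicit false

namespace Pool.Agent.SPV

open Finset

/-- **Row SPA** (Tao's uncertainty principle; easy, uses CHE). PROOF. Let `k = |A|`. If there were `k` zeros
`s`, take `t : Fin k → ZMod q` injective with values in the set of zeros and `a : Fin k → ZMod q` the enumeration of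
`A`; the vector `(c (a j))_j ≠ 0` is in the kernel of the matrix `w ^ (t i * a j).val`, against CHE. -/
def SpaStmt : Prop :=
  ∀ (q : ℕ) [NeZero q], q.Prime → ∀ (w : ℂ), IsPrimitiveRoot w q → ∀ (A : Finset (ZMod q)) (c : ZMod q → ℂ),
    (∃ i ∈ A, c i ≠ 0) → (univ.filter fun s : ZMod q => ∑ i ∈ A, c i * w ^ (s * i).val = 0).card < A.card

/-- **Row DEP** (dependent tuples; medium, uses SPA). PROOF. `v s = (ev (F l) (w ^ s.val))_l ∈ ℂ ^ t`. Let `D j` be the
number of the `s : Fin j → ZMod q`, all `s i ≠ 0`, such that `v (s 0), .., v (s (j - 1))` are linearly dependent.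
`D 1 = 0`: `v s ≠ 0` for `s ≠ 0`, because `F 0 ≠ 0` has a coefficient `0` (`|A| < q`) and `w ^ s.val` is a primitive root
(`Pool.Agent.Helper24_Sparse.ev_ne_zero`, cyclotomic polynomial). `D (j + 1) ≤ (q - 1) D j + (k - 1) (q - 1) ^ j`
for `1 ≤ j < t`: if the first `j` vectors are independent there is `c' ∈ ℂ ^ t`, `c' ≠ 0`, orthogonal (`∑ c' l v l = 0`)
to them; if `v (s j)` is dependent on them, `∑ l, c' l * ev (F l) (w ^ (s j).val) = 0`, i.e. `s j` is a zero of the
polynomial with the coefficients `∑ l, c' l F l e`, which are not all `0` and are supported on `A`: by SPA at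
most `k - 1` values. So `D t ≤ (t - 1)(k - 1)(q - 1) ^ (t - 1)`, and the determinant is `0` iff the rows are
dependent. -/
def DepStmt : Prop :=
  ∀ (q t : ℕ) [NeZero q], q.Prime → 1 ≤ t → ∀ (w : ℂ), IsPrimitiveRoot w q → ∀ (A : Finset (ZMod q))
    (F : Fin t → ZMod q → ℤ), A.card < q → (∀ l, ∀ e ∉ A, F l e = 0) →
    (LinearIndependent ℂ fun (l : Fin t) (e : ZMod q) => (F l e : ℂ)) →
    (univ.filter fun s : Fin t → ZMod q => (∀ i, s i ≠ 0) ∧
      (Matrix.of fun i l => ev (F l) (w ^ (s i).val)).det = 0).card ≤ (t - 1) * (A.card - 1) * (q - 1) ^ (t - 1)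

/-- **Row POE** (the determinant as a polynomial; easy). PROOF. In the commutative ring
`AddMonoidAlgebra ℤ (ZMod q)` take the determinant of the matrix with the entries `∑ e, F l e X ^ (s i * e)`; `R` = its
coefficients. For `x ^ q = 1` the map `X ^ e ↦ x ^ e.val` is a ring homomorphism to `K` (`AddMonoidAlgebra.lift`) and
maps the element with the coefficients `b` to `ev b x`, and the entry to `ev (F l) (x ^ (s i).val)`
(`x ^ (s e).val = (x ^ s.val) ^ e.val`); `RingHom.map_det`. (Or expand by hand.) -/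
def PoeStmt : Prop :=
  ∀ (q t : ℕ) [NeZero q] (F : Fin t → ZMod q → ℤ) (s : Fin t → ZMod q), ∃ R : ZMod q → ℤ,
    ∀ (K : Type) [CommRing K] (x : K), x ^ q = 1 →
      ev R x = (Matrix.of fun i l => ev (F l) (x ^ (s i).val)).det

/-- **Row ENE** (the main inequality; medium, uses NRM, HAD, PAR, RTS, DEP, POE). PROOF. `z` the root of RTS,
`Z` the set of the `s : ZMod q`, `s ≠ 0`, with `∑ l, c l * ev (F l) (z ^ s.val) = 0` (this is the value of `f` at
`z ^ s.val`), `|Z| ≥ nr - 1 ≥ r` (the root `1` is the exponent `0`). For `s : Fin t → ZMod q`, all `s i ≠ 0`, let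
`N s = #{u ∈ Ico 1 q : u s i ∈ Z for all i}`. `∑ s, N s = (q - 1) |Z| ^ t` (for fixed `u` the map `s ↦ u s` is a
bijection). The `s` with `det (ev (F l) (w ^ (s i).val)) = 0` contribute at most `(q - 1) D`, `D` the bound of
DEP, so there is an `s` with determinant `≠ 0` and `N s ≥ (r ^ t - D) / (q - 1) ^ (t - 1)` (there are `(q - 1) ^ t`
tuples; if the right side is `≤ 0` the inequality is trivial, the right side of ENE is `≥ 0` because `S ≥ 1`).
`R` from POE: for `u` counted in `N s` the vector `c` is in the kernel of `(ev (F l) (z ^ (u s i).val))_(i,l)`, so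
`ev R (z ^ u) = 0`; NRM: `N s log p ≤ log ∏ u ∈ Ico 1 q, ‖ev R (w ^ u)‖`. HAD for the transposed matrix:
`‖ev R (w ^ u)‖ ^ 2 ≤ ∏ l, ∑ i, ‖ev (F l) (w ^ (u s i).val)‖ ^ 2`. The product over `u` and `l`, `t (q - 1)` factors, is
by the inequality of the means (`Helper24_Sparse.amgm`) at most `(the mean) ^ (t (q - 1))`, and by PAR the sum of all
factors is at most `t q S` (for fixed `i`, `l` the exponents `u s i` run through `1, .., q - 1`), so the mean is
at most `q S / (q - 1)`. -/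
def EneStmt : Prop :=
  ∀ (q p t : ℕ) [NeZero q] [Fact p.Prime], q.Prime → q ∣ p - 1 → 1 ≤ t → ∀ (A : Finset ℕ), A ⊂ range q →
    ∀ (n : ℕ → Fin t → ℤ) (c : Fin t → ZMod p), (∃ l, c l ≠ 0) →
    (LinearIndependent ℂ fun (l : Fin t) (i : A) => (n i l : ℂ)) →
    ∀ r : ℕ, r + 1 ≤ (nr p q A fun i => ∑ l, (n i l : ZMod p) * c l) →
    ((r : ℝ) ^ t / ((q : ℝ) - 1) ^ (t - 1) - ((t : ℝ) - 1) * (A.card - 1)) * Real.log p ≤
      (t * ((q : ℝ) - 1) / 2) * Real.log (q / ((q : ℝ) - 1) * ∑ l, ∑ i ∈ A, (n i l : ℝ) ^ 2)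

/-- **Row IND** (independent polynomials; medium). PROOF. Over the field `ZMod p` choose `J` such that the
vectors `(n i (J l))_(i ∈ A)` are a basis of the span of all the `(n i j)_(i ∈ A)` (`exists_linearIndependent`
or similar); `β` restricted to `A` is in the span and not `0`, so `t' ≥ 1` and `β i = ∑ l, n i (J l) * c l`, `c ≠ 0`.
Vectors of integers which are independent modulo `p` are independent over `ℂ`: some `t' × t'` minor is not
`0` modulo `p` (rank), so it is not `0` as a complex number. -/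
def IndStmt : Prop :=
  ∀ (p t : ℕ) [Fact p.Prime] (A : Finset ℕ) (β : ℕ → ZMod p) (γ : Fin t → ZMod p) (n : ℕ → Fin t → ℤ),
    (∃ i ∈ A, β i ≠ 0) → (∀ i ∈ A, β i = ∑ j, (n i j : ZMod p) * γ j) →
    ∃ (t' : ℕ) (J : Fin t' → Fin t) (c : Fin t' → ZMod p), 1 ≤ t' ∧ t' ≤ t ∧ (∃ l, c l ≠ 0) ∧
      (∀ i ∈ A, β i = ∑ l, (n i (J l) : ZMod p) * c l) ∧
      LinearIndependent ℂ fun (l : Fin t') (i : A) => (n i (J l) : ℂ)

/-- **Row ASY** (the theorem; medium, uses ENE, IND). PROOF. `h = η + δ/2`. If `ε ≥ 1` the claim is trivial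
(`nr ≤ q`). Let `ε < 1`. For `t' ≤ t`, `t' ≥ 1`: `t' h ≤ t h (t'/t) < ε ^ t (t'/t) ≤ ε ^ t'`; let `g > 0` be the
minimum of `ε ^ t' - t' h`. Suppose `nr > ε q`. IND gives `t'`, `J`, `c`; ENE with `t'`, `r = nr - 1` and `S ≤ t k p ^ (2 η)`,
`q/(q - 1) ≤ 2`, `k ≤ q ^ δ`, `q ≤ p`: after division by `(q - 1) log p`
`((nr - 1)/(q - 1)) ^ t' ≤ (t' - 1)(k - 1)/(q - 1) + t' h + t' log (2 t)/(2 log p)`. If `t' ≥ 2`, then `t ≥ 2`,
`δ/2 ≤ h < 1/t ≤ 1/2`, so `δ < 1` and `(k - 1)/(q - 1) → 0` for `q → ∞`. The left side is at least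
`((ε q - 1)/(q - 1)) ^ t'`, which tends to `ε ^ t'`. Contradiction for large `p`, `q` (the error terms are smaller
than `g/2`). -/
def AsyStmt : Prop :=
  ∀ (t : ℕ), 0 < t → ∀ (η δ ε : ℝ), 0 ≤ η → 0 ≤ δ → 0 < ε → t * (η + δ / 2) < ε ^ t →
    ∃ N : ℕ, ∀ (p q : ℕ), p.Prime → q.Prime → N ≤ p → N ≤ q → q ∣ p - 1 →
      ∀ (A : Finset ℕ), A ⊂ range q → A.Nonempty → (A.card : ℝ) ≤ (q : ℝ) ^ δ →
      ∀ (β : ℕ → ZMod p) (γ : Fin t → ZMod p) (n : ℕ → Fin t → ℤ),
        (∃ i ∈ A, β i ≠ 0) → (∀ i ∈ A, ∀ j, |(n i j : ℝ)| ≤ (p : ℝ) ^ η) →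
        (∀ i ∈ A, β i = ∑ j, (n i j : ZMod p) * γ j) → (nr p q A β : ℝ) ≤ ε * q

end Pool.Agent.SPV
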